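import Pool.Agent.U9.CG.Main
import Pool.Agent.Results.MP_65b575_al.FreeOrVirtuallyAbelian

/-!
# Finite aspherical complexes whose fundamental group embeds in a contracting group

The fundamental group `G` of a finite aspherical complex `M` is finitely presented and torsion-free. We
show: if such a group embeds in a contracting group `K` of automorphisms of a rooted tree (more generally, in
a group of tree automorphisms whose elements have their sections at some level in a contracting group) with a
suitable cover, then `G` is trivial or has a normal subgroup `ℤ^n` of finite index, `n ≥ 1`. So `G` is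
amenable and `H_0(M; C_r^*(G))` is not zero: the zero-in-the-spectrum conjecture holds for `M` (this
classical consequence is not formalised). If `G` embeds in any group with the finitely presented
alternative of `MP_65b575_al.FreeOrVirtuallyAbelian`, the same holds if `G` has no nonabelian free subgroup:
so a counterexample in such a group has a nonabelian free subgroup, not only a nonamenable fundamental
group.

Proof. As in `MP_6a95c2_gt.ContractingGroups`: by the engine `Pool/Agent/U863/CT` of helper863 the group `K`
has the alternative, and by a theorem of Nekrashevych (proved in `Pool/Agent/U9/CG`) it has no nonabelian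
free subgroup, so `G` is virtually abelian.
-/

set_option autoImplicit false

namespace Pool.Agent.Results.MP_9f173d_gt.ContractingGroups

open Pool.Agent.Y462.SS (T Wr tau)
open Pool.Agent.U863.CT (Contracting secw Auto CliqueSet)
open Pool.Agent.Results.MP_65b575_al.FreeOrVirtuallyAbelian
  (HasFree VirtAbelian Alternative alternative_eq)

/-- The quotients of `A` by finitely many elements of finite order have the alternative. -/
def TorsionQuotients (A : Type) [Group A] : Prop :=
  ∀ S : Set A, S.Finite → (∀ s ∈ S, IsOfFinOrder s) →
    Alternative (A ⧸ Subgroup.normalClosure S)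

/-- `G` has a normal subgroup of finite index which is isomorphic to `ℤ^n` for some `n`. -/
def Crystallographic (G : Type) [Group G] : Prop :=
  ∃ (n : ℕ) (A : Subgroup G), A.Normal ∧ A.FiniteIndex ∧ Nonempty (A ≃* (Fin n → Multiplicative ℤ))

/-- `G` has a normal subgroup of finite index which is isomorphic to `ℤ^n` for some `n ≥ 1`. -/
def TorusCovered (G : Type) [Group G] : Prop :=
  ∃ (n : ℕ) (A : Subgroup G), 1 ≤ n ∧ A.Normal ∧ A.FiniteIndex ∧
    Nonempty (A ≃* (Fin n → Multiplicative ℤ))

/-- Every nontrivial finitely presented torsion-free group which embeds in `K` has a normal subgroup `ℤ^n`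
of finite index, `n ≥ 1`. -/
def Toral (K : Type) [Group K] : Prop :=
  ∀ (G : Type) [Group G], Nontrivial G → Group.IsFinitelyPresented G →
    (∀ g : G, IsOfFinOrder g → g = 1) → ∀ f : G →* K, Function.Injective f → TorusCovered G

theorem fg_of_fp (G : Type) [Group G] (hfp : Group.IsFinitelyPresented G) : Group.FG G := by
  obtain ⟨n, φ, hφ, -⟩ := hfp.out
  exact Group.fg_of_surjective hφ

theorem crys_of (G : Type) [Group G] (hfg : Group.FG G)
    (ht : ∀ g : G, IsOfFinOrder g → g = 1) (h : VirtAbelian G) : Crystallographic G := by
  classical
  obtain ⟨A₀, hA₀, hcomm₀⟩ := h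
  have hAf : A₀.normalCore.FiniteIndex := inferInstance
  have hcomm : ∀ x ∈ A₀.normalCore, ∀ y ∈ A₀.normalCore, x * y = y * x := fun x hx y hy =>
    hcomm₀ x (A₀.normalCore_le hx) y (A₀.normalCore_le hy)
  have hn : A₀.normalCore.Normal := inferInstance
  generalize A₀.normalCore = A at hAf hcomm hn
  have hAfg : Group.FG A := Subgroup.fg_of_index_ne_zero (H := A)
  let _ : CommGroup A :=
    { (inferInstance : Group A) with
      mul_comm := fun x y => Subtype.ext (hcomm x x.2 y y.2) }
  obtain ⟨ι, j, _, _, p, hp, e, ⟨E⟩⟩ := CommGroup.equiv_free_prod_prod_multiplicative_zmod A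
  have hz : ∀ i : ι, Finite (Multiplicative (ZMod (p i ^ e i))) := by
    intro i
    have : NeZero (p i ^ e i) := ⟨pow_ne_zero _ (hp i).ne_zero⟩
    exact inferInstanceAs (Finite (ZMod (p i ^ e i)))
  have htA : ∀ x : (i : ι) → Multiplicative (ZMod (p i ^ e i)), x = 1 := by
    intro x
    have h1 : IsOfFinOrder x := isOfFinOrder_of_finite x
    have h2 : IsOfFinOrder (E.symm (1, x)) := by
      have h3 : IsOfFinOrder ((1, x) : (j → Multiplicative ℤ) ×
          ((i : ι) → Multiplicative (ZMod (p i ^ e i)))) := by
        have := (MonoidHom.inr (j → Multiplicative ℤ)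
          ((i : ι) → Multiplicative (ZMod (p i ^ e i)))).isOfFinOrder h1
        simpa using this
      exact (E.symm.toMonoidHom).isOfFinOrder h3
    have h4 : ((E.symm (1, x) : A) : G) = 1 := ht _ (A.subtype.isOfFinOrder h2)
    have h5 : E.symm (1, x) = 1 := Subtype.ext h4
    have h6 : ((1, x) : (j → Multiplicative ℤ) × ((i : ι) → Multiplicative (ZMod (p i ^ e i)))) = 1 := by
      have h7 := congrArg E h5
      rwa [MulEquiv.apply_symm_apply, map_one] at h7
    exact congrArg Prod.snd h6
  refine ⟨Fintype.card j, A, hn, hAf, ⟨?_⟩⟩
  let E1 : A ≃* (j → Multiplicative ℤ) :=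
    { toFun := fun a => (E a).1
      invFun := fun x => E.symm (x, 1)
      left_inv := fun a => by
        have h1 : ((E a).1, (1 : (i : ι) → Multiplicative (ZMod (p i ^ e i)))) = E a :=
          Prod.ext rfl (htA _).symm
        change E.symm ((E a).1, 1) = a
        rw [h1, MulEquiv.symm_apply_apply]
      right_inv := fun x => by
        change (E (E.symm (x, 1))).1 = x
        rw [MulEquiv.apply_symm_apply]
      map_mul' := fun a b => by
        rw [map_mul]
        rfl }
  let E2 : (j → Multiplicative ℤ) ≃* (Fin (Fintype.card j) → Multiplicative ℤ) :=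
    { toFun := fun x i => x ((Fintype.equivFin j).symm i)
      invFun := fun x i => x (Fintype.equivFin j i)
      left_inv := fun x => by
        funext i
        simp
      right_inv := fun x => by
        funext i
        simp
      map_mul' := fun x y => rfl }
  exact E1.trans E2

theorem torus_of (G : Type) [Group G] (hn : Nontrivial G) (ht : ∀ g : G, IsOfFinOrder g → g = 1)
    (h : Crystallographic G) : TorusCovered G := by
  obtain ⟨n, A, hN, hA, ⟨e⟩⟩ := h
  rcases Nat.eq_zero_or_pos n with rfl | hpos
  · exfalso
    have h1 : Subsingleton A := e.toEquiv.subsingleton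
    have h2 : A = ⊥ := by
      rw [Subgroup.eq_bot_iff_forall]
      intro x hx
      exact congrArg Subtype.val (Subsingleton.elim (⟨x, hx⟩ : A) 1)
    have h3 : Finite G := by
      have h4 : (⊥ : Subgroup G).FiniteIndex := h2 ▸ hA
      have h5 : Finite (G ⧸ (⊥ : Subgroup G)) := inferInstance
      exact Finite.of_equiv _ (QuotientGroup.quotientBot (G := G)).toEquiv
    obtain ⟨x, y, hxy⟩ := hn.exists_pair_ne
    exact hxy (by rw [ht x (isOfFinOrder_of_finite x), ht y (isOfFinOrder_of_finite y)])
  · exact ⟨n, A, hpos, hN, hA, ⟨e⟩⟩

theorem torus_alt (P : Type) [Group P] (hP : Alternative P) (G : Type) [Group G] (hn : Nontrivial G)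
    (hfp : Group.IsFinitelyPresented G) (ht : ∀ g : G, IsOfFinOrder g → g = 1)
    (f : G →* P) (hf : Function.Injective f) : HasFree G ∨ TorusCovered G := by
  rcases hP G hfp f with h | h
  · exact Or.inl h
  · refine Or.inr (torus_of G hn ht (crys_of G (fg_of_fp G hfp) ht ?_))
    exact Pool.Agent.N59.TT.VAb.of_inj f.rangeRestrict (fun a b hab => by
      have h3 : f a = f b := congrArg (fun z : f.range => (z : P)) hab
      exact hf h3) h

theorem toral_of (K : Type) [Group K] (hA : Alternative K)
    (hF : ¬ ∃ f : FreeGroup (Fin 2) →* K, Function.Injective f) : Toral K := by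
  intro G _ hn hfp ht f hf
  rcases torus_alt K hA G hn hfp ht f hf with ⟨g, hg⟩ | h
  · exact absurd ⟨f.comp g, hf.comp hg⟩ hF
  · exact h

/-- (1) Let `P` be a group with the alternative, and `G` a nontrivial finitely presented torsion-free group
which embeds in `P`. Then `G` has a nonabelian free subgroup, or a normal subgroup `ℤ^n` of finite index with
`n ≥ 1`.
(2) Let `ψ` be a contracting recursion on a group `Γ` with `TorsionQuotients`, and let `K` be a group of
tree automorphisms such that every element of `K` has all sections at some level in the group given by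
`ψ`. Then every nontrivial finitely presented torsion-free group which embeds in `K` has a normal subgroup
`ℤ^n` of finite index with `n ≥ 1` (`Toral`); for example the fundamental group of a finite aspherical
complex, if it is not trivial and embeds in `K`.
(3) The same holds if the sections of the elements of `K` at some level are in the group generated by a finite
set `N` of tree automorphisms which contains `1`, is closed under inverses and sections, such that the
sections of the products of two elements of `N` are in `N` at some level, and such that `a⁻¹ b ∈ N` is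
transitive on `N ∖ {1}`.
(4) `TorsionQuotients` holds for finite groups, virtually abelian groups, torsion-free groups with the
alternative, and free products of groups with this property. -/
theorem result :
    (∀ (P : Type) [Group P], Alternative P → ∀ (G : Type) [Group G], Nontrivial G →
      Group.IsFinitelyPresented G → (∀ g : G, IsOfFinOrder g → g = 1) →
      ∀ f : G →* P, Function.Injective f → HasFree G ∨ TorusCovered G) ∧
    (∀ (X : Type) [Finite X] (Γ : Type) [Group Γ] (ψ : Γ →* Wr X Γ), TorsionQuotients Γ →
      Contracting ψ → ∀ K : Subgroup (T X),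
      (∀ g ∈ K, ∃ n : ℕ, ∀ v : List X, v.length = n →
        secw (Pool.Agent.Y462.SS.toWr X) g v ∈ (tau ψ).range) → Toral K) ∧
    (∀ (X : Type) [Finite X] (N : Set (T X)), N.Finite → Auto N → CliqueSet N →
      ∀ K : Subgroup (T X), (∀ g ∈ K, ∃ n : ℕ, ∀ v : List X, v.length = n →
        secw (Pool.Agent.Y462.SS.toWr X) g v ∈ Subgroup.closure N) → Toral K) ∧
    (∀ (A : Type) [Group A], Finite A ∨ VirtAbelian A ∨
        (Alternative A ∧ ∀ a : A, IsOfFinOrder a → a = 1) → TorsionQuotients A) ∧
    ∀ (ι : Type) (A : ι → Type) [∀ i, Group (A i)], (∀ i, TorsionQuotients (A i)) →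
      TorsionQuotients (Monoid.CoprodI A) := by
  have hC : Pool.Agent.Y462.SS.Closed Alternative := by
    rw [alternative_eq]
    exact Pool.Agent.N59.TT.closed_TT
  refine ⟨fun P _ hP G _ hn hfp ht f hf => torus_alt P hP G hn hfp ht f hf, ?_, ?_, ?_, ?_⟩
  · intro X _ Γ _ ψ hΓ hψ K hK
    obtain ⟨S, hS, hS1, hS2⟩ := Pool.Agent.U863.CT.tors_main ψ Alternative hC hψ
    exact toral_of K (Pool.Agent.U863.CT.levels_range ψ Alternative hC
      (hS2 (hΓ S hS fun s hs => (hS1 s hs).1)) K hK)
      (Pool.Agent.U9.CG.not_free_range ψ hψ K hK)
  · intro X _ N hf hN hT K hK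
    exact toral_of K (Pool.Agent.U863.CT.gpd_main' Alternative hC N hN hT (Or.inl hf) K hK)
      (Pool.Agent.U9.CG.not_free_auto N hf hN K hK)
  · rintro A _ (h | h | ⟨h1, h2⟩)
    · exact Pool.Agent.U863.CT.tq_finite Alternative hC A
    · intro S _ _
      rw [alternative_eq]
      exact Pool.Agent.N59.TT.TT.of_VAb _ (Pool.Agent.N59.TT.VAb.of_surj
        (QuotientGroup.mk' (Subgroup.normalClosure S)) (QuotientGroup.mk'_surjective _) h)
    · exact Pool.Agent.U863.CT.tq_torsionfree Alternative hC A h1 h2
  · intro ι A _ hA
    exact Pool.Agent.U863.CT.tq_coprodI' Alternative hC hA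

end Pool.Agent.Results.MP_9f173d_gt.ContractingGroups
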