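import Pool.Agent.U838.FT.Face
import Pool.Agent.U838.ZD.Res
import Pool.Agent.Q169.FT.Final
import Pool.Agent.Q169.FT.PD
import Pool.Agent.Q111.FT.ConvB
import Pool.Agent.Q111.FT.Gap
import Pool.Agent.Q111.FT.Good
import Pool.Agent.Q146.FT.Amen
import Pool.Agent.Q241.ZD.Ltwo
import Pool.Agent.Q169.PT.TF

/-!
# Zero in the spectrum and folding

`U : AcyclicGComplex N` with a free action of `N` with finitely many orbits of cells (represented by
`rep i a`, `a < c i`) is the universal cover of a finite aspherical complex `M` with the fundamental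
group `N`, and `X : FinRes N` its cellular chain complex (or any other finite free resolution of `ℤ`
over `ℤ[N]`), so that `X.homology (toRed N) i` is `H_i(M; C*_r(N))`. In the same way
`V : AcyclicGComplex L` is the universal cover of a finite aspherical complex `M'` with the
fundamental group `L`.

`Inh` (file `Pool/Agent/Q169/FT/Stm.lean`): the inherited subcomplexes of the universal cover `U`.
These form the smallest family of subcomplexes which contains `U` and is closed under
* passing from `B` to a face of the chamber of a finite reflection group which acts on `B` (`Refl`;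
  the face of all the walls is the fixed set of the group),
* bounded chain retracts (`Retr`),
* `A₁ ∩ A₂`, if `A₁`, `A₂` and `A₁ ∪ A₂` are inherited.

`HcZ V d`: the cohomology with compact supports `H_c^d(V; ℤ)` is infinite cyclic (for instance `M'`
is a closed aspherical `d`-manifold, or `L` is a Poincaré duality group of dimension `d`).
-/

set_option autoImplicit false

namespace Pool.Agent.Results.MP_9f173d_gt.FoldedSubcomplexes

open Pool.Agent.H919R4.ZS (FinRes toRed)
open Pool.Agent.TH38.CX (AcyclicGComplex)
open Pool.Agent.Q169.FT (Inh HcZ)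

/-- Let `M` and `M'` be finite aspherical complexes with the universal covers `U` and `V` and the
fundamental groups `N` and `L`. Suppose that `V` is isomorphic to an inherited subcomplex of `U`
(there is no condition on the groups: `L` need not be related to `N`). If
* `H_i(M'; C*_r(L)) ≠ 0` for some `i`, or
* `H_c^d(V; ℤ) ≅ ℤ` for some `d ≤ 3` (for instance, `M'` is a closed aspherical manifold of dimension
  at most three),
then `H_i(M; C*_r(N)) ≠ 0` for some `i`. -/
theorem result {N : Type} [Group N] (U : AcyclicGComplex N)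
    (hU : ∀ i (n : N) (e : U.E i), n • e = e → n = 1)
    (c : ℕ → ℕ) (rep : ∀ i, Fin (c i) → U.E i)
    (hrep : ∀ i (e : U.E i), ∃! a, e ∈ MulAction.orbit N (rep i a))
    {L : Type} [Group L] (V : AcyclicGComplex L)
    (hV : ∀ i (n : L) (e : V.E i), n • e = e → n = 1)
    (c' : ℕ → ℕ) (rep' : ∀ i, Fin (c' i) → V.E i)
    (hrep' : ∀ i (e : V.E i), ∃! a, e ∈ MulAction.orbit L (rep' i a))
    (ι : ∀ i, V.E i → U.E i) (hι : ∀ i, Function.Injective (ι i))
    (hbd : ∀ i (e : V.E (i + 1)), U.bd i (Finsupp.single (ι (i + 1) e) 1) =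
      (V.bd i (Finsupp.single e 1)).mapDomain (ι i))
    (hinh : Inh (fun i (e : U.E (i + 1)) => U.bd i (Finsupp.single e 1))
      (fun i => Set.range (ι i)))
    (h : (∃ (Y : FinRes L) (i : ℕ), Nontrivial (Y.homology (toRed L) i)) ∨ ∃ d ≤ 3, HcZ V d) :
    Nonempty (FinRes N) ∧ ∀ X : FinRes N, ∃ i, Nontrivial (X.homology (toRed N) i) := by
  have hres := Pool.Agent.U838.ZD.res
  obtain ⟨X₀, -⟩ := hres N U hU c rep hrep
  obtain ⟨Y₀, -⟩ := hres L V hV c' rep' hrep'
  refine ⟨⟨X₀⟩, fun X => ?_⟩
  exact Pool.Agent.Q169.FT.final' (Pool.Agent.Q241.ZD.ltwo hres) Pool.Agent.Q111.FT.good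
    Pool.Agent.U838.FT.face Pool.Agent.Q111.FT.trans
    (Pool.Agent.Q111.FT.conv hres Pool.Agent.Q111.FT.gap Pool.Agent.Q111.FT.neu)
    (Pool.Agent.Q169.FT.PD.pda hres) (Pool.Agent.Q169.FT.PD.pdb hres)
    Pool.Agent.Q146.FT.amen hres U hU c rep hrep V hV
    (fun g hg => Pool.Agent.Q169.PT.TFr.tf L Y₀ g hg) c' rep' hrep' ι hι hbd hinh h X

end Pool.Agent.Results.MP_9f173d_gt.FoldedSubcomplexes
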