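import Pool.Agent.U670.ZS.Final

/-!
The zero-in-the-spectrum conjecture for a finite aspherical complex `M` which has coverings with
locally finite cycles or cocycles of subexponential growth.

`X : FinRes G` is the cellular chain complex of the universal cover of a finite aspherical complex
`M` with fundamental group `G` (`Pool.Agent.H919R4.ZS.Defs`), `X.len` is the dimension of `M` and
`X.homology (toRed G) i` is `H_i(M; C*_r(G))`. Locally finite chains `f` of the covering `M_C` with
fundamental group `C ≤ G`, with coefficients in a unitary representation `π` of `C`, their mass,
the neighbourhoods `nbhd S r A` of finite sets of cosets, subexponential growth and the predicates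
`IsGood` and `IsSlow` are defined in `Pool.Agent.U670.ZS.Defs`; unitary representations, the
boundary and tempered representations in `Pool.Agent.TH98.ZT.Defs`, amenability (the Foelner
condition) in `Pool.Agent.H496R3.ZS.Stmt`.
-/

set_option autoImplicit false

namespace Pool.Agent.Results.MP_9f173d_gt.SlowChains

open Pool.Agent.H919R4.ZS (FinRes toRed)
open Pool.Agent.H496R3.ZS (IsAmenable)
open Pool.Agent.TH98.ZT (URep Tempered)
open Pool.Agent.U670.ZS

/-- Each of the following conditions implies `H_i(M; C*_r(G)) ≠ 0` for some `i ≤ k`.

(1) For some subgroup `C` and unitary representation `π` of `C`, such that `C` is amenable or `π`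
is weakly contained in the regular representation of `C`, the covering `M_C` has a locally finite
`k`-chain `f` of subexponential growth with coefficients in `π`, which is a non-zero cycle, and
also a cocycle or `k = dim M` (for instance the fundamental cycle of a flat of dimension `dim M` in
the universal cover); or is a cycle with `⟪f, c⟫ ≠ 0` for a finite cocycle `c`; or is a cocycle
with `⟪f, c⟫ ≠ 0` for a finite cycle `c` (`IsGood`).

(2) The uniform form of (1): for every finite set `S ⊆ G` and every `ε > 0` there are `C`, `π` as
above and a locally finite `k`-chain `f` which is slow at scale `(S, ε)` (`IsSlow`), i.e. the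
exponential growth rates of the chains as in (1), for all `C` and `π`, are not bounded below by a
positive number. -/
theorem result (G : Type) [Group G] (X : FinRes G) (k : ℕ)
    (h : (∃ (C : Subgroup G) (V : Type) (_ : NormedAddCommGroup V) (_ : InnerProductSpace ℂ V)
        (π : URep C V) (f : Fin (X.n k) → G → V), (IsAmenable C ∨ Tempered π) ∧ IsGood X k π f) ∨
      ∀ (S : Finset G) (ε : ℝ), 0 < ε → ∃ (C : Subgroup G) (V : Type)
        (_ : NormedAddCommGroup V) (_ : InnerProductSpace ℂ V) (π : URep C V)
        (f : Fin (X.n k) → G → V), (IsAmenable C ∨ Tempered π) ∧ IsSlow X k S ε π f) :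
    ∃ i ≤ k, Nontrivial (X.homology (toRed G) i) := by
  rcases h with ⟨C, V, _, _, π, f, hπ, h⟩ | h
  · exact single X k hπ f h
  · exact main X k h

end Pool.Agent.Results.MP_9f173d_gt.SlowChains
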