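import Pool.Agent.U838.DV.Fin

/-!
# Zero in the spectrum for Coxeter groups and for reflection groups with chambers of any kind

`(W, S)` is a Coxeter system (`cs`, the simple reflections are indexed by the set `B`), `H` a group
which acts on `B` and on `W` (`φ`), `Y` the cells of a finite-dimensional complex with a free action
of `H` with finitely many orbits of cells and with mirrors `Y_b`, `b ∈ B` (`Mirrored`), such that the
intersection `Y_T` of the mirrors in `T` is acyclic for all `T ⊆ B` with `W_T` finite, in particular
`Y = Y_∅` (`FaceAcyclic`), and the group `W_(mir e)` generated by the reflections which fix a cell `e`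
is always finite. Then the complex `𝒰(W, Y) = W × Y / ∼` is acyclic, and `W ⋊ H` acts on it with
finite stabilisers and finitely many orbits.

The definitions are in `Pool/Agent/Q169/ZD/Defs.lean`, `Pool/Agent/U838/ZD/WDefs.lean` and
`Pool/Agent/U838/DV/Defs.lean`. `X : FinRes N` is a finite free resolution of `ℤ` over `ℤ[N]`, the
cellular chain complex of the universal cover of a finite aspherical complex with the fundamental
group `N`, and `X.homology (toRed N) i` is the homology of this complex with coefficients in
`C*_r(N)`.
-/

set_option autoImplicit false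

namespace Pool.Agent.Results.MP_9f173d_gt.WeightedEulerCharacteristic

open Pool.Agent.H919R4.ZS (FinRes toRed)
open Pool.Agent.Q169.ZD
open Pool.Agent.U838.ZD (weightedEuler euler relEuler)
open Pool.Agent.U838.DV (FaceAcyclic)

/-- (1) If `S` is finite, then every torsion-free subgroup `N` of finite index of the Coxeter group
`W` has a finite free resolution, and `H_i(X; C*_r(N)) ≠ 0` for some `i`, for every such resolution
`X`.

(2) In general, this holds for every torsion-free subgroup `N` of finite index of `W ⋊ H` if
* the weighted Euler characteristic `∑_a (-1)^(dim a) / W_(mir a)(q)` (`a` runs over the cells of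
  `Y / H`) is not zero for some `H`-invariant weight function `q > 0` on `W`, or
* the Euler characteristic of `Y / H` is not zero, or
* the Euler characteristic of the pair `(Y / H, ∂ Y / H)` is not zero, `∂ Y` the union of the
  mirrors. -/
theorem result {B : Type} {M : CoxeterMatrix B} {W : Type} [Group W] (cs : CoxeterSystem M W) :
    (Finite B → ∀ (N : Subgroup W) [N.FiniteIndex], (∀ g ∈ N, IsOfFinOrder g → g = 1) →
      Nonempty (FinRes N) ∧ ∀ X : FinRes N, ∃ i, Nontrivial (X.homology (toRed N) i)) ∧
    ∀ {H : Type} [Group H] [MulAction H B] (φ : H →* MulAut W),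
      (∀ h b, φ h (cs.simple b) = cs.simple (h • b)) → ∀ Y : Mirrored H B,
      (∀ T : Set B, Finite (par cs T) → FaceAcyclic Y T) →
      (∀ i e, Finite (par cs (Y.mir i e))) →
      ((∃ q : W → ℝ, IsWeight cs q ∧ (∀ h w, q (φ h w) = q w) ∧ weightedEuler cs Y q ≠ 0) ∨
        euler Y ≠ 0 ∨ relEuler Y ≠ 0) →
      ∀ (N : Subgroup (W ⋊[φ] H)) [N.FiniteIndex], (∀ g ∈ N, IsOfFinOrder g → g = 1) →
      Nonempty (FinRes N) ∧ ∀ X : FinRes N, ∃ i, Nontrivial (X.homology (toRed N) i) :=
  ⟨fun _ N _ hN => Pool.Agent.U838.DV.coxeter cs N hN,
    fun φ hφ Y hY hfin h N _ hN => Pool.Agent.U838.DV.general cs φ hφ Y hY hfin N hN h⟩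

end Pool.Agent.Results.MP_9f173d_gt.WeightedEulerCharacteristic
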